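import Pool.Agent.Helper8.QU.Old

/-!
# T-QUAD, P5b: the irreducible factors of the symbol
-/

set_option autoImplicit false

namespace Pool.Agent.Helper8.QU

open MvPolynomial Pool.Agent.Helper49.QU Pool.Agent.Helper65.CB

variable {n r : ℕ} {N : Fin r → ℕ} {k : Type} [Field k]

theorem degreeOf_le_of_dvd {σ : Type*} (x : σ) {P F : MvPolynomial σ k} (hF : F ≠ 0) (h : P ∣ F) :
    degreeOf x P ≤ degreeOf x F := by
  obtain ⟨G, rfl⟩ := h
  rw [degreeOf_mul_eq (left_ne_zero_of_mul hF) (right_ne_zero_of_mul hF)]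
  omega

/-- **P5b.** with P2, P3, P4, P6a as hypotheses -/
theorem factor_class_of (dm : ℕ) (hdm : 2 ≤ dm)
    (B : ∀ i : Fin r, Matrix (Fin (N i)) (Fin (N i)) (MvPolynomial (Fin n) k)) (i : Fin r)
    (hD : ∀ s : VI N, (D1 (incB N B i) (gv n N k i)).degreeOf (vix N s) ≤ 2 ∧
      (D2 (incB N B i) (gv n N k i)).degreeOf (vix N s) ≤ 2 ∧
      (D3 (incB N B i) (gv n N k i)).degreeOf (vix N s) ≤ 2)
    (hM : ∀ P : MvPolynomial (Fin n) k, Irreducible P →
      inc n N k P ∣ aQ N B i * bQ N B i → Minors (B i) P)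
    (hS : ∀ P : MvPolynomial (Fin n) k, Irreducible P → SplitAt (B i) P → bQ N B i ≠ 0 →
      LCU (inc n N k P) (aQ N B i) (bQ N B i))
    (hb : bQ N B i ≠ 0)
    (h : ∀ P : MvPolynomial (Fin n) k, Irreducible P →
      (∀ j : Fin n, (∀ l < j, P.degreeOf l = 0) → P.degreeOf j ≤ dm) ∨
        ¬ Minors (B i) P ∨ SplitAt (B i) P)
    (P : MvPolynomial (Fin (vn N + n)) k) (hP : Irreducible P)
    (hd : P ∣ aQ N B i * bQ N B i) :
    (∀ j : Fin (vn N + n), (∀ l < j, P.degreeOf l = 0) → P.degreeOf j ≤ dm) ∨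
      LCU P (aQ N B i) (bQ N B i) := by
  by_cases hv : ∀ s : VI N, P.degreeOf (vix N s) = 0
  · obtain ⟨P0, hP0, hPP, hdeg⟩ := exists_old P hP hv
    rcases h P0 hP0 with h1 | h1 | h1
    · left
      intro j hj
      rcases mem_range_or j with ⟨s, rfl⟩ | ⟨j0, rfl⟩
      · rw [hv s]
        exact Nat.zero_le _
      · rw [hdeg j0]
        refine h1 j0 fun l hl => ?_
        rw [← hdeg l]
        exact hj _ (tix_lt_tix.2 hl)
    · exact absurd (hM P0 hP0 (hPP ▸ hd)) h1
    · right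
      rw [hPP]
      exact hS P0 hP0 h1 hb
  · left
    push Not at hv
    obtain ⟨s, hs⟩ := hv
    have h3 : D1 (incB N B i) (gv n N k i) * D2 (incB N B i) (gv n N k i) *
        D3 (incB N B i) (gv n N k i) ≠ 0 := by
      unfold bQ qb at hb
      exact neg_ne_zero.1 hb
    have hn3 := right_ne_zero_of_mul h3
    have hn2 := right_ne_zero_of_mul (left_ne_zero_of_mul h3)
    have hn1 := left_ne_zero_of_mul (left_ne_zero_of_mul h3)
    have hpr : Prime P := hP.prime
    have hdiv : P ∣ D1 (incB N B i) (gv n N k i) ∨ P ∣ D2 (incB N B i) (gv n N k i) ∨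
        P ∣ D3 (incB N B i) (gv n N k i) := by
      unfold aQ bQ qa qb at hd
      rcases hpr.dvd_or_dvd hd with h4 | h4
      · exact Or.inr (Or.inl ((dvd_neg).1 h4))
      · rcases hpr.dvd_or_dvd ((dvd_neg).1 h4) with h5 | h5
        · rcases hpr.dvd_or_dvd h5 with h6 | h6
          · exact Or.inl h6
          · exact Or.inr (Or.inl h6)
        · exact Or.inr (Or.inr h5)
    intro j hj
    rcases mem_range_or j with ⟨s', rfl⟩ | ⟨j0, rfl⟩
    · obtain ⟨e1, e2, e3⟩ := hD s'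
      rcases hdiv with h5 | h5 | h5
      · exact ((degreeOf_le_of_dvd _ hn1 h5).trans e1).trans hdm
      · exact ((degreeOf_le_of_dvd _ hn2 h5).trans e2).trans hdm
      · exact ((degreeOf_le_of_dvd _ hn3 h5).trans e3).trans hdm
    · exact absurd (hj _ (vix_lt_tix s j0)) hs

end Pool.Agent.Helper8.QU
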