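import Mathlib

/-!
# T-QUAD, P5: polynomials in which only some of the variables occur
-/

set_option autoImplicit false

namespace Pool.Agent.Helper8.QU

open MvPolynomial

section

variable {σ τ k : Type*}

theorem exists_rename [CommSemiring k] {f : τ → σ} (P : MvPolynomial σ k)
    (h : ∀ i, i ∉ Set.range f → P.degreeOf i = 0) : ∃ P0 : MvPolynomial τ k, rename f P0 = P := by
  classical
  have h1 : P ∈ supported k (Set.range f) := by
    rw [mem_supported]
    intro i hi
    by_contra hc
    have h2 := h i hc
    rw [Finset.mem_coe, mem_vars_iff_mem_support] at hi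
    obtain ⟨d, hd, hid⟩ := hi
    have h3 := monomial_le_degreeOf i hd
    rw [h2] at h3
    rw [Finsupp.mem_support_iff] at hid
    omega
  rw [supported_eq_range_rename] at h1
  obtain ⟨q, hq⟩ := h1
  choose g hg using fun x : Set.range f => x.2
  refine ⟨rename g q, ?_⟩
  rw [rename_rename]
  have : f ∘ g = ((↑) : Set.range f → σ) := funext fun x => hg x
  rw [this]
  exact hq

theorem rename_dvd_rename_iff [CommRing k] {f : τ → σ} (hf : Function.Injective f)
    {P Q : MvPolynomial τ k} : rename f P ∣ rename f Q ↔ P ∣ Q := by
  constructor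
  · intro h
    have h1 := map_dvd (killCompl hf) h
    rwa [killCompl_rename_app, killCompl_rename_app] at h1
  · exact fun h => map_dvd (rename f) h

theorem isUnit_of_rename [CommRing k] {f : τ → σ} (hf : Function.Injective f)
    {P : MvPolynomial τ k} (h : IsUnit (rename f P)) : IsUnit P := by
  have h1 := h.map (killCompl hf)
  rwa [killCompl_rename_app] at h1

theorem irreducible_of_rename [CommRing k] {f : τ → σ} (hf : Function.Injective f)
    {P : MvPolynomial τ k} (h : Irreducible (rename f P)) : Irreducible P := by
  refine ⟨fun hu => h.not_isUnit (hu.map (rename f)), fun x y hxy => ?_⟩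
  have h1 : rename f P = rename f x * rename f y := by rw [hxy, map_mul]
  rcases h.isUnit_or_isUnit h1 with h2 | h2
  · exact Or.inl (isUnit_of_rename hf h2)
  · exact Or.inr (isUnit_of_rename hf h2)

theorem degreeOf_rename_of_notMem [CommSemiring k] {f : τ → σ} {P : MvPolynomial τ k} {i : σ}
    (h : i ∉ Set.range f) : (rename f P).degreeOf i = 0 := by
  classical
  by_contra hc
  have h1 : i ∈ (rename f P).vars := by
    by_contra h2
    apply hc
    rw [← Nat.le_zero, degreeOf_le_iff]
    intro m hm
    by_contra h3
    exact h2 ((mem_vars_iff_mem_support i).2 ⟨m, hm, Finsupp.mem_support_iff.2 (by omega)⟩)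
  have h2 := vars_rename f P h1
  rw [Finset.mem_image] at h2
  obtain ⟨j, -, rfl⟩ := h2
  exact h ⟨j, rfl⟩

end

end Pool.Agent.Helper8.QU
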