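import Pool.Agent.Helper49.QU.Defs
import Pool.Agent.Helper8.QU.Ren

/-!
# T-QUAD, P5a
-/

set_option autoImplicit false

namespace Pool.Agent.Helper8.QU

open MvPolynomial Pool.Agent.Helper49.QU

variable {n r : ℕ} {N : Fin r → ℕ} {k : Type} [Field k]

theorem tix_injective : Function.Injective (tix (n := n) N) := fun x y h => by
  unfold tix at h
  exact Fin.natAdd_injective _ _ h

theorem mem_range_or (i : Fin (vn N + n)) : (∃ s, vix N s = i) ∨ ∃ j, tix N j = i := by
  refine Fin.addCases (fun x => ?_) (fun x => ?_) i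
  · left
    refine ⟨(Fintype.equivFin (VI N)).symm x, ?_⟩
    unfold vix
    rw [Equiv.apply_symm_apply]
  · exact Or.inr ⟨x, rfl⟩

theorem vix_ne_tix (s : VI N) (j : Fin n) : vix N s ≠ tix N j := by
  unfold vix tix
  intro h
  have := congrArg Fin.val h
  rw [Fin.val_castAdd, Fin.val_natAdd] at this
  have h2 : (Fintype.equivFin (VI N) s).val < vn N := (Fintype.equivFin (VI N) s).isLt
  omega

theorem vix_lt_tix (s : VI N) (j : Fin n) : vix N s < tix N j := by
  unfold vix tix
  rw [Fin.lt_def, Fin.val_castAdd, Fin.val_natAdd]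
  have h2 : (Fintype.equivFin (VI N) s).val < vn N := (Fintype.equivFin (VI N) s).isLt
  omega

theorem tix_lt_tix {a b : Fin n} : tix N a < tix N b ↔ a < b := by
  unfold tix
  rw [Fin.lt_def, Fin.val_natAdd, Fin.val_natAdd, Fin.lt_def]
  omega

/-- **P5a.** a polynomial without new variables is an old one -/
theorem exists_old (P : MvPolynomial (Fin (vn N + n)) k) (hP : Irreducible P)
    (h : ∀ s : VI N, P.degreeOf (vix N s) = 0) :
    ∃ P0 : MvPolynomial (Fin n) k, Irreducible P0 ∧ P = inc n N k P0 ∧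
      ∀ j, P.degreeOf (tix N j) = P0.degreeOf j := by
  obtain ⟨P0, hP0⟩ := exists_rename (f := tix N) P (fun i hi => by
    rcases mem_range_or i with ⟨s, rfl⟩ | ⟨j, rfl⟩
    · exact h s
    · exact absurd ⟨j, rfl⟩ hi)
  refine ⟨P0, irreducible_of_rename tix_injective (hP0 ▸ hP), hP0.symm, fun j => ?_⟩
  rw [← hP0]
  exact degreeOf_rename_of_injective tix_injective j

end Pool.Agent.Helper8.QU
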